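import Pool.Agent.Y775.W3.Stm

set_option autoImplicit false

/-!
# Project W3: residue data of a monic irreducible polynomial
-/

namespace Pool.Agent.Y310.W3.Poly

open Polynomial Y775.W3

section

variable {k : Type} [Field k] {P : k[X]}

theorem quot {A : k[X]} (hP : P.Monic) (h : P ∣ A) (hd : A.natDegree < 2 * P.natDegree) :
    ∃ y : k[X], A = P * y ∧ (y = 0 ∨ (y ≠ 0 ∧ y.natDegree < P.natDegree)) := by
  obtain ⟨y, rfl⟩ := h
  refine ⟨y, rfl, ?_⟩
  by_cases hy : y = 0
  · left; exact hy
  · right
    refine ⟨hy, ?_⟩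
    rw [natDegree_mul hP.ne_zero hy] at hd
    omega

theorem rep_mk (hP : P.Monic) (a : k[X]) :
    AdjoinRoot.modByMonicHom hP (AdjoinRoot.mk P a) = a %ₘ P :=
  AdjoinRoot.modByMonicHom_mk hP a

theorem rep_lt (hP : P.Monic) (hn : 0 < P.natDegree) (x : AdjoinRoot P) :
    (AdjoinRoot.modByMonicHom hP x).natDegree < P.natDegree := by
  obtain ⟨a, rfl⟩ := AdjoinRoot.mk_surjective x
  rw [rep_mk]
  apply natDegree_modByMonic_lt a hP
  rintro rfl
  simp at hn

theorem rep_small (hP : P.Monic) {a : k[X]} (ha : a.natDegree < P.natDegree) :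
    AdjoinRoot.modByMonicHom hP (AdjoinRoot.mk P a) = a := by
  rw [rep_mk, modByMonic_eq_self_iff hP]
  exact degree_lt_degree ha

theorem mk_rep (hP : P.Monic) (x : AdjoinRoot P) :
    AdjoinRoot.mk P (AdjoinRoot.modByMonicHom hP x) = x :=
  AdjoinRoot.mk_leftInverse hP x

end

theorem main : StmPOLY := by
  intro k _ P hirr hP
  have hn : 0 < P.natDegree := hirr.out.natDegree_pos
  set rep : AdjoinRoot P → k[X] := fun x => AdjoinRoot.modByMonicHom hP x with hrepdef
  have hmk : ∀ x, AdjoinRoot.mk P (rep x) = x := fun x => mk_rep hP x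
  have hlt : ∀ x, (rep x).natDegree < P.natDegree := fun x => rep_lt hP hn x
  have hsm : ∀ a : k[X], a.natDegree < P.natDegree → rep (AdjoinRoot.mk P a) = a :=
    fun a ha => rep_small hP ha
  have hdvd : ∀ a : k[X], AdjoinRoot.mk P a = 0 ↔ P ∣ a := fun a => AdjoinRoot.mk_eq_zero
  have hsub : ∀ x y, rep x - rep y = rep (x - y) := fun x y => (map_sub _ x y).symm
  have h0 : rep 0 = 0 := map_zero _
  have h1 : rep 1 = 1 := by
    have := hsm 1 (by simpa using hn)
    rwa [map_one] at this
  have hne : ∀ x, x ≠ 0 → rep x ≠ 0 := by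
    intro x hx h
    apply hx
    rw [← hmk x, h, map_zero]
  have hm2 : ∀ a b : k[X], a.natDegree < P.natDegree → b.natDegree < P.natDegree →
      (a * b).natDegree < 2 * P.natDegree := by
    intro a b ha hb
    have := natDegree_mul_le (p := a) (q := b)
    omega
  have hs2 : ∀ a b : k[X], ∀ N : ℕ, a.natDegree < N → b.natDegree < N →
      (a - b).natDegree < N := by
    intro a b N ha hb
    have := natDegree_sub_le a b
    have h2 := max_lt ha hb
    omega
  have hquot := fun (A : k[X]) (h : P ∣ A) (hd : A.natDegree < 2 * P.natDegree) =>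
    quot hP h hd
  refine ⟨{ p := P
            ρ := AdjoinRoot.mk P
            rep := rep
            hp := hdvd
            hrep := hmk
            rep0 := h0
            rep1 := h1
            S := {a | a ≠ 0 ∧ a.natDegree < P.natDegree}
            hSρ := ?_
            s2 := ?_
            s3 := ?_
            s4 := ?_
            Adm := fun a b => a.natDegree + b.natDegree ≤ P.natDegree
            μ := fun a => a.natDegree
            adm1 := by simp
            euclid := ?_
            Box := {A | A.natDegree < 2 * P.natDegree}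
            b1 := ?_
            b2 := ?_ }, rfl, rfl, rfl, fun a b => Iff.rfl, fun a => rep_mk hP a⟩
  · rintro a ⟨ha, hd⟩ h
    rw [hdvd] at h
    exact hP.not_dvd_of_natDegree_lt ha hd h
  · intro x y hxy
    rw [hsub]
    exact ⟨hne _ (sub_ne_zero.2 hxy), hlt _⟩
  · rintro b ⟨hb, hbd⟩ c ⟨hc, hcd⟩ x hx
    obtain ⟨y, hy1, hy2⟩ := hquot (rep x * c - b) (by
      rw [← hdvd, map_sub, map_mul, hmk, hx, sub_self])
      (hs2 _ _ _ (hm2 _ _ (hlt x) hcd) (by omega))
    exact ⟨y, hy1, hy2⟩
  · intro x w hx0 hx1 hw0 hw1 hxw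
    have hwx : w - x ≠ 0 := sub_ne_zero.2 (Ne.symm hxw)
    have hr1 : (rep w - 1).natDegree < P.natDegree := by
      have := hlt (w - 1)
      rw [← hsub, h1] at this
      exact this
    have hr2 : (rep w - rep x).natDegree < P.natDegree := by
      rw [hsub]; exact hlt _
    obtain ⟨y, hy1, hy2⟩ := hquot
      (rep x * (rep w - 1) - (rep w - rep x) * rep (x * (w - 1) / (w - x))) (by
      rw [← hdvd, map_sub, map_mul, map_mul, map_sub, map_sub, hmk, hmk, hmk, map_one]
      field_simp
      ring)
      (hs2 _ _ _ (hm2 _ _ (hlt x) hr1) (hm2 _ _ hr2 (hlt _)))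
    exact ⟨y, hy1, hy2⟩
  · rintro x hx c ⟨hc, hcd⟩ hadm
    have hadm' : P.natDegree < (rep x).natDegree + c.natDegree := by
      simpa using hadm
    set r := rep x with hr
    have hrlt : r.natDegree < P.natDegree := hlt x
    have hr0 : r ≠ 0 := hne x hx
    have hr1 : r.natDegree ≠ 0 := by omega
    have hdm := EuclideanDomain.div_add_mod P r
    have hmod : (P % r).natDegree < r.natDegree := natDegree_mod_lt P hr1
    have hy0 : P / r ≠ 0 := by
      intro h
      rw [h, mul_zero, zero_add] at hdm
      rw [hdm] at hmod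
      omega
    have hyd : (P / r).natDegree + r.natDegree = P.natDegree := by
      have h2 : P.natDegree = (r * (P / r)).natDegree := by
        have h3 : (P % r).natDegree < (r * (P / r)).natDegree := by
          rw [natDegree_mul hr0 hy0]; omega
        have h4 := natDegree_add_eq_left_of_natDegree_lt h3
        rw [hdm] at h4
        exact h4
      rw [h2, natDegree_mul hr0 hy0, add_comm]
    refine ⟨P / r, ⟨hy0, by omega⟩, by omega, by omega, ?_⟩
    have h5 : x * AdjoinRoot.mk P (P / r) = AdjoinRoot.mk P (-(P % r)) := by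
      rw [← hmk x, ← hr, ← map_mul]
      have h6 : r * (P / r) = P - P % r := by
        rw [eq_sub_iff_add_eq]; exact hdm
      rw [h6, map_sub, map_neg, AdjoinRoot.mk_self, zero_sub]
    rw [h5, hsm _ (by rw [natDegree_neg]; omega), natDegree_neg]
    exact hmod
  · rintro b ⟨hb, hbd⟩ c ⟨hc, hcd⟩ hadm x hx
    constructor
    · have h2 := natDegree_mul_le (p := b) (q := c)
      have h3 := natDegree_mul_le (p := b * c) (q := rep x)
      have h4 := hlt x
      have hadm' : b.natDegree + c.natDegree ≤ P.natDegree := hadm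
      show (b * c * rep x).natDegree < 2 * P.natDegree
      omega
    · exact hm2 _ _ (hlt _) (hlt _)
  · intro A₁ h₁ A₂ h₂ h
    obtain ⟨y, hy1, hy2⟩ := hquot (A₁ - A₂) (by rw [← hdvd, map_sub, h, sub_self])
      (hs2 _ _ _ h₁ h₂)
    rcases hy2 with hy | hy
    · left
      rw [hy, mul_zero, sub_eq_zero] at hy1
      exact hy1
    · right
      exact ⟨y, hy, hy1⟩

end Pool.Agent.Y310.W3.Poly
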